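import Pool.Agent.Q161.ESF.Stm7
import Pool.Agent.Q286.EQ.MW
import Pool.Agent.TH841.SH.Grp

/-!
# Project ESF (helper161), job GRPF: the Selmer group, the rank and the Tate-Shafarevich group

Adapted from `Pool/Agent/Q68/EA/GRP2.lean` and `Pool/Agent/TH841/SH/Grp.lean`.
-/

set_option autoImplicit false

namespace Pool.Agent.Q153.ESF

open WeierstrassCurve Polynomial NumberField IsDedekindDomain

open scoped Classical

open Pool.Agent.Q161.ESF
open Pool.Agent.Q161.ESG (shF)
open Pool.Agent.TH841.SH (IsR)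

variable {F : Type} [Field F]

/-- the curve over an algebraically closed field -/
theorem exists_isR [CharZero F] (A B : F) (hd : 4 * A ^ 3 + 27 * B ^ 2 ≠ 0) (K : Type) [Field K] [Algebra F K]
    [IsAlgClosed K] : ∃ a b c : K, a ≠ b ∧ a ≠ c ∧ b ≠ c ∧ IsR ((shF A B).baseChange K) a b c := by
  have : CharZero K := charZero_of_injective_algebraMap (algebraMap F K).injective
  obtain ⟨A', hA⟩ : ∃ A' : K, A' = algebraMap F K A := ⟨_, rfl⟩
  obtain ⟨B', hB⟩ : ∃ B' : K, B' = algebraMap F K B := ⟨_, rfl⟩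
  have hd' : 4 * A' ^ 3 + 27 * B' ^ 2 ≠ 0 := by
    intro h
    apply hd
    apply (algebraMap F K).injective
    rw [map_zero, ← h, hA, hB]
    simp only [map_add, map_mul, map_pow, map_ofNat]
  have h2 : (2 : K) ≠ 0 := two_ne_zero
  obtain ⟨a, ha⟩ : ∃ a : K, a ^ 3 + A' * a + B' = 0 := by
    have h1 : (X ^ 3 + C A' * X + C B' : K[X]).degree = 3 := by compute_degree!
    obtain ⟨a, ha⟩ := IsAlgClosed.exists_root (X ^ 3 + C A' * X + C B' : K[X]) (by
      rw [h1]
      norm_num)
    refine ⟨a, ?_⟩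
    have := ha.eq_zero
    simpa using this
  obtain ⟨s, hs⟩ := IsAlgClosed.exists_pow_nat_eq (-3 * a ^ 2 - 4 * A') (n := 2) (by norm_num)
  obtain ⟨b, hb⟩ : ∃ b : K, b = (-a + s) / 2 := ⟨_, rfl⟩
  obtain ⟨c, hc⟩ : ∃ c : K, c = (-a - s) / 2 := ⟨_, rfl⟩
  have e1 : a + b + c = 0 := by
    rw [hb, hc]
    field_simp
    ring
  have e2 : a * b + a * c + b * c = A' := by
    have e3 : 4 * (a * b + a * c + b * c) = 4 * A' := by
      have e4 : 2 * b = -a + s := by rw [hb]; field_simp
      have e5 : 2 * c = -a - s := by rw [hc]; field_simp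
      calc 4 * (a * b + a * c + b * c) = 2 * a * (2 * b) + 2 * a * (2 * c) + (2 * b) * (2 * c) := by ring
        _ = 2 * a * (-a + s) + 2 * a * (-a - s) + (-a + s) * (-a - s) := by rw [e4, e5]
        _ = -3 * a ^ 2 - s ^ 2 := by ring
        _ = 4 * A' := by rw [hs]; ring
    exact mul_left_cancel₀ (by norm_num) e3
  have e6 : a * b * c = -B' := by
    have e7 : b * c = a ^ 2 + A' := by
      linear_combination e2 - a * e1
    linear_combination a * e7 + ha
  have hdisc : ((a - b) * (a - c) * (b - c)) ^ 2 = -(4 * A' ^ 3 + 27 * B' ^ 2) := by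
    have hc' : c = -a - b := by linear_combination e1
    have hA' : A' = a * b + a * (-a - b) + b * (-a - b) := by rw [← e2, hc']
    have hB' : B' = -(a * b * (-a - b)) := by
      rw [← hc', e6]
      ring
    rw [hc', hA', hB']
    ring
  have hne : (a - b) * (a - c) * (b - c) ≠ 0 := by
    intro h0
    rw [h0] at hdisc
    apply hd'
    linear_combination hdisc
  refine ⟨a, b, c, ?_, ?_, ?_, ?_⟩
  · rintro rfl
    exact hne (by ring)
  · rintro h0
    rw [h0] at hne
    exact hne (by ring)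
  · rintro h0
    rw [h0] at hne
    exact hne (by ring)
  · refine ⟨?_, ?_, ?_, ?_, ?_⟩
    · show algebraMap F K 0 = 0
      exact map_zero _
    · show algebraMap F K 0 = _
      rw [map_zero, e1, neg_zero]
    · show algebraMap F K 0 = 0
      exact map_zero _
    · show algebraMap F K A = _
      rw [← hA, ← e2]
    · show algebraMap F K B = _
      rw [← hB, e6]
      ring


theorem act_some (W : WeierstrassCurve F) {K L : Type} [Field K] [Field L] [Algebra F K]
    [Algebra F L] (φ : K →ₐ[F] L) {x y : K} (h : (W.baseChange K).toAffine.Nonsingular x y) :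
    act W φ (.some x y h) =
      .some (φ x) (φ y) ((Affine.baseChange_nonsingular W φ.injective ..).mpr h) := rfl

theorem act_act (W : WeierstrassCurve F) {K L M : Type} [Field K] [Field L] [Field M] [Algebra F K]
    [Algebra F L] [Algebra F M] (φ : K →ₐ[F] L) (ψ : L →ₐ[F] M) (P : Pt W K) :
    act W ψ (act W φ P) = act W (ψ.comp φ) P :=
  Affine.Point.map_map φ ψ P

theorem lc_apply (x : AlgebraicClosure F) : IsLocallyConstant (fun σ : GF F => σ x) := by
  rw [IsLocallyConstant.iff_exists_open]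
  intro σ
  have hx : IsIntegral F x := Algebra.IsIntegral.isIntegral x
  have : FiniteDimensional F (IntermediateField.adjoin F {x}) :=
    IntermediateField.adjoin.finiteDimensional hx
  refine ⟨(fun τ => σ⁻¹ * τ) ⁻¹'
    ((IntermediateField.adjoin F {x}).fixingSubgroup : Set (GF F)),
    (IntermediateField.fixingSubgroup_isOpen _).preimage (continuous_const_mul _), ?_, ?_⟩
  · show σ⁻¹ * σ ∈ (IntermediateField.adjoin F {x}).fixingSubgroup
    rw [inv_mul_cancel]
    exact one_mem _
  · intro τ hτ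
    have h1 : σ⁻¹ * τ ∈ (IntermediateField.adjoin F {x}).fixingSubgroup := hτ
    rw [IntermediateField.mem_fixingSubgroup_iff] at h1
    have h2 := h1 x (IntermediateField.mem_adjoin_simple_self F x)
    rw [AlgEquiv.mul_apply] at h2
    have h3 := congrArg σ h2
    rw [← AlgEquiv.mul_apply, mul_inv_cancel, AlgEquiv.one_apply] at h3
    exact h3

theorem lc_act (W : WeierstrassCurve F) (Q : Pt W (AlgebraicClosure F)) :
    IsLocallyConstant (fun σ : GF F => act W σ.toAlgHom Q) := by
  rcases Q with _ | ⟨x, y, h⟩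
  · exact IsLocallyConstant.const _
  · rw [IsLocallyConstant.iff_eventually_eq]
    intro σ
    have h1 := ((IsLocallyConstant.iff_eventually_eq _).1 (lc_apply x)) σ
    have h2 := ((IsLocallyConstant.iff_eventually_eq _).1 (lc_apply y)) σ
    filter_upwards [h1, h2] with τ h3 h4
    rw [act_some, act_some]
    congr 1

theorem act_mul (W : WeierstrassCurve F) (σ τ : GF F) (Q : Pt W (AlgebraicClosure F)) :
    act W (σ * τ).toAlgHom Q = act W σ.toAlgHom (act W τ.toAlgHom Q) := by
  rw [act_act]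
  rfl

theorem locTriv_cob (W : WeierstrassCurve F) (K : Type) [Field K] [Algebra F K] (Q : Pt W (AlgebraicClosure F)) :
    LocTriv W K (fun σ => act W σ.toAlgHom Q - Q) := by
  intro ι
  refine ⟨act W ι Q, fun τ σ h => ?_⟩
  rw [map_sub, act_act, act_act, h]

variable [NumberField F]

theorem evLoc_cob (W : WeierstrassCurve F) (Q : Pt W (AlgebraicClosure F)) :
    EvLoc W (fun σ => act W σ.toAlgHom Q - Q) :=
  ⟨fun _ => locTriv_cob W _ Q, fun _ => locTriv_cob W _ Q⟩

theorem lc_cob (W : WeierstrassCurve F) (Q : Pt W (AlgebraicClosure F)) :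
    IsLocallyConstant (fun σ : GF F => act W σ.toAlgHom Q - Q) :=
  (lc_act W Q).sub (IsLocallyConstant.const Q)

theorem coc_cob (W : WeierstrassCurve F) (Q : Pt W (AlgebraicClosure F)) (σ τ : GF F) :
    act W (σ * τ).toAlgHom Q - Q = (act W σ.toAlgHom Q - Q) +
      act W σ.toAlgHom (act W τ.toAlgHom Q - Q) := by
  rw [map_sub, act_mul]
  abel

/-- fixed points are rational -/
theorem exists_rat (W : WeierstrassCurve F) : ∃ j : W.toAffine.Point →+ Pt W (AlgebraicClosure F),
    Function.Injective j ∧ (∀ (σ : GF F) (P : W.toAffine.Point),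
      act W σ.toAlgHom (j P) = j P) ∧
    ∀ P : Pt W (AlgebraicClosure F), (∀ σ : GF F, act W σ.toAlgHom P = P) → ∃ q, j q = P := by
  suffices H : ∀ W' : WeierstrassCurve F, W' = W.baseChange F →
      ∃ j : W'.toAffine.Point →+ Pt W (AlgebraicClosure F), Function.Injective j ∧
      (∀ (σ : GF F) (P : W'.toAffine.Point), act W σ.toAlgHom (j P) = j P) ∧
      ∀ P : Pt W (AlgebraicClosure F), (∀ σ : GF F, act W σ.toAlgHom P = P) → ∃ q, j q = P by
    apply H W
    apply WeierstrassCurve.ext <;> simp [WeierstrassCurve.baseChange]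
  rintro W' rfl
  refine ⟨Affine.Point.map (Algebra.ofId F (AlgebraicClosure F)), Affine.Point.map_injective _, ?_, ?_⟩
  · intro σ P
    rcases P with _ | ⟨x, y, h⟩
    · rfl
    · rw [Affine.Point.map_some, act_some]
      congr 1
      · exact σ.commutes x
      · exact σ.commutes y
  · intro P hP
    rcases P with _ | ⟨X, Y, h⟩
    · exact ⟨0, rfl⟩
    · have hfix : ∀ σ : GF F, σ X = X ∧ σ Y = Y := by
        intro σ
        have := hP σ
        rw [act_some, Affine.Point.some.injEq] at this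
        exact this
      obtain ⟨x, hx⟩ := Pool.Agent.TH841.SH.fix_mem (K := F) X (fun τ => (hfix τ).1)
      obtain ⟨y, hy⟩ := Pool.Agent.TH841.SH.fix_mem (K := F) Y (fun τ => (hfix τ).2)
      subst hx hy
      have hn : (W.baseChange F).toAffine.Nonsingular x y :=
        (Affine.baseChange_nonsingular W (f := Algebra.ofId F (AlgebraicClosure F))
          (Algebra.ofId F (AlgebraicClosure F)).injective x y).mp h
      exact ⟨.some x y hn, rfl⟩


variable {W : WeierstrassCurve F}

theorem selC_le (W : WeierstrassCurve F) : selC W ≤ shaCoc W := by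
  rintro f ⟨h1, _⟩
  exact h1

theorem cobT_comap (W : WeierstrassCurve F) : (cobT W).addSubgroupOf (selC W) ≤
    ((cob W).addSubgroupOf (shaCoc W)).comap (AddSubgroup.inclusion (selC_le W)) := by
  intro f hf
  rw [AddSubgroup.mem_addSubgroupOf] at hf
  obtain ⟨T, hT, hf⟩ := hf
  exact ⟨T, hf⟩

/-- from the Selmer group to the Tate-Shafarevich group -/
noncomputable def toS (W : WeierstrassCurve F) : Sel2 W →+ Sha W :=
  QuotientAddGroup.map _ _ (AddSubgroup.inclusion (selC_le W)) (cobT_comap W)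

theorem toS_mk (f : selC W) : toS W (QuotientAddGroup.mk f) =
    QuotientAddGroup.mk (AddSubgroup.inclusion (selC_le W) f) := rfl

theorem toS_ker (f : selC W) : toS W (QuotientAddGroup.mk f) = 0 ↔
    ∃ P, ∀ σ, (f : (GF F) → Pt W (AlgebraicClosure F)) σ = act W σ.toAlgHom P - P := by
  rw [toS_mk, QuotientAddGroup.eq_zero_iff, AddSubgroup.mem_addSubgroupOf]
  rfl

theorem cob_selC (Q : Pt W (AlgebraicClosure F))
    (hQ : ∀ σ : GF F, act W σ.toAlgHom Q - Q + (act W σ.toAlgHom Q - Q) = 0) :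
    (fun σ : GF F => act W σ.toAlgHom Q - Q) ∈ selC W :=
  ⟨⟨⟨lc_cob W Q, coc_cob W Q⟩, evLoc_cob W Q⟩, hQ⟩

theorem toS_range {a b c : AlgebraicClosure F} (hab : a ≠ b) (hac : a ≠ c) (hbc : b ≠ c)
    (h : IsR (W.baseChange (AlgebraicClosure F)) a b c) (x : Sha W) :
    x ∈ (toS W).range ↔ x + x = 0 := by
  constructor
  · rintro ⟨f, rfl⟩
    obtain ⟨f, rfl⟩ := QuotientAddGroup.mk_surjective f
    rw [← map_add, ← QuotientAddGroup.mk_add]
    have : f + f = 0 := by
      apply Subtype.ext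
      funext σ
      exact f.2.2 σ
    rw [this, QuotientAddGroup.mk_zero, map_zero]
  · intro hx
    obtain ⟨f, rfl⟩ := QuotientAddGroup.mk_surjective x
    rw [← QuotientAddGroup.mk_add, QuotientAddGroup.eq_zero_iff,
      AddSubgroup.mem_addSubgroupOf] at hx
    obtain ⟨P, hP⟩ := hx
    obtain ⟨Q, rfl⟩ := h.div two_ne_zero hab hac hbc P
    obtain ⟨⟨f1, f2⟩, f3⟩ := f.2
    have hP' : ∀ σ, (f : (GF F) → Pt W (AlgebraicClosure F)) σ + (f : (GF F) → Pt W (AlgebraicClosure F)) σ =
      act W σ.toAlgHom (Q + Q) - (Q + Q) := hP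
    obtain ⟨g, hg⟩ : ∃ g : (GF F) → Pt W (AlgebraicClosure F), g =
      fun σ => (f : (GF F) → Pt W (AlgebraicClosure F)) σ - (act W σ.toAlgHom Q - Q) := ⟨_, rfl⟩
    have hge : ∀ σ, g σ = (f : (GF F) → Pt W (AlgebraicClosure F)) σ - (act W σ.toAlgHom Q - Q) :=
      fun σ => by rw [hg]
    have hg2 : ∀ σ, g σ + g σ = 0 := by
      intro σ
      have e1 : g σ + g σ = ((f : (GF F) → Pt W (AlgebraicClosure F)) σ +
        (f : (GF F) → Pt W (AlgebraicClosure F)) σ) - ((act W σ.toAlgHom Q + act W σ.toAlgHom Q) -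
          (Q + Q)) := by
        rw [hge]
        abel
      rw [e1, hP', map_add, sub_self]
    have hgsel : g ∈ selC W := by
      refine ⟨⟨⟨?_, fun σ τ => ?_⟩, ?_⟩, hg2⟩
      · rw [hg]
        exact f1.sub (lc_cob W Q)
      · have e9 : act W σ.toAlgHom (g τ) = act W σ.toAlgHom ((f : (GF F) → Pt W (AlgebraicClosure F)) τ) -
            act W σ.toAlgHom (act W τ.toAlgHom Q - Q) := by
          rw [hge, map_sub]
        rw [e9, hge (σ * τ), hge σ, f2, coc_cob]
        abel
      · have e5 : g = (f : (GF F) → Pt W (AlgebraicClosure F)) +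
          -(fun σ : GF F => act W σ.toAlgHom Q - Q) := by
          funext σ
          rw [hge]
          simp only [Pi.add_apply, Pi.neg_apply]
          abel
        rw [e5]
        exact EvLoc.add f3 (evLoc_cob W Q).neg
    refine ⟨QuotientAddGroup.mk ⟨g, hgsel⟩, ?_⟩
    rw [toS_mk, QuotientAddGroup.eq, AddSubgroup.mem_addSubgroupOf]
    refine ⟨Q, fun σ => ?_⟩
    show -g σ + (f : (GF F) → Pt W (AlgebraicClosure F)) σ = _
    rw [hge]
    abel

theorem sel2_card_le {a b c : AlgebraicClosure F} (hab : a ≠ b) (hac : a ≠ c) (hbc : b ≠ c)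
    (h : IsR (W.baseChange (AlgebraicClosure F)) a b c) (hfg : AddGroup.FG W.toAffine.Point) [Finite (Sel2 W)] :
    Finite {x : Sha W // x + x = 0} ∧
    2 ^ Module.finrank ℤ W.toAffine.Point * Nat.card {x : Sha W // x + x = 0} ≤
      Nat.card (Sel2 W) := by
  have e1 : Nat.card {x : Sha W // x + x = 0} = Nat.card (toS W).range :=
    Nat.card_congr (Equiv.subtypeEquivRight (fun x => (toS_range hab hac hbc h x).symm))
  have hfr : Finite (toS W).range := Finite.of_surjective _ (toS W).rangeRestrict_surjective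
  have e2 : Nat.card (Sel2 W) = Nat.card (toS W).range * Nat.card (toS W).ker := by
    rw [AddSubgroup.card_eq_card_quotient_mul_card_addSubgroup (toS W).ker]
    congr 1
    exact Nat.card_congr (QuotientAddGroup.quotientKerEquivRange (toS W)).toEquiv
  refine ⟨Finite.of_equiv _ (Equiv.subtypeEquivRight (fun x => toS_range hab hac hbc h x)), ?_⟩
  rw [e1, e2, mul_comm]
  refine Nat.mul_le_mul_left _ ?_
  obtain ⟨j, hj, hjσ, hjf⟩ := exists_rat W
  have : Fintype (toS W).ker := Fintype.ofFinite _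
  let R : (toS W).ker → W.toAffine.Point → Prop := fun f g =>
    ∃ (Q : Pt W (AlgebraicClosure F)) (hQ : (fun σ : GF F => act W σ.toAlgHom Q - Q) ∈ selC W),
      Q + Q = j g ∧ f.1 = QuotientAddGroup.mk ⟨_, hQ⟩
  let T : Finset W.toAffine.Point :=
    Finset.univ.image (fun f : (toS W).ker => if hd : ∃ g, R f g then hd.choose else 0)
  have hT : T.card ≤ Nat.card (toS W).ker := by
    rw [Nat.card_eq_fintype_card]
    exact Finset.card_image_le.trans_eq Finset.card_univ
  refine Pool.Agent.W505.RK.rkb _ hfg _ T hT (fun g => ?_)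
  obtain ⟨Q, hQ⟩ := h.div two_ne_zero hab hac hbc (j g)
  have hsel : (fun σ : GF F => act W σ.toAlgHom Q - Q) ∈ selC W := by
    apply cob_selC
    intro σ
    have e3 : act W σ.toAlgHom Q - Q + (act W σ.toAlgHom Q - Q) =
      (act W σ.toAlgHom Q + act W σ.toAlgHom Q) - (Q + Q) := by abel
    rw [e3, ← map_add, ← hQ, hjσ, sub_self]
  have hker : (QuotientAddGroup.mk ⟨_, hsel⟩ : Sel2 W) ∈ (toS W).ker := by
    rw [AddMonoidHom.mem_ker, toS_ker]
    exact ⟨Q, fun σ => rfl⟩
  have hex : ∃ g', R ⟨_, hker⟩ g' := ⟨g, Q, hsel, hQ.symm, rfl⟩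
  obtain ⟨Q', hsel', hQ', hf'⟩ := hex.choose_spec
  refine ⟨hex.choose, ?_, ?_⟩
  · refine Finset.mem_image.2 ⟨⟨_, hker⟩, Finset.mem_univ _, ?_⟩
    rw [dif_pos hex]
  · have h1 : (QuotientAddGroup.mk ⟨_, hsel'⟩ : Sel2 W) = QuotientAddGroup.mk ⟨_, hsel⟩ := hf'.symm
    rw [QuotientAddGroup.eq, AddSubgroup.mem_addSubgroupOf] at h1
    obtain ⟨T', hT', h2⟩ := h1
    have h3 : ∀ σ : GF F, -(act W σ.toAlgHom Q' - Q') + (act W σ.toAlgHom Q - Q) =
      act W σ.toAlgHom T' - T' := h2
    have hfix : ∀ σ : GF F, act W σ.toAlgHom (Q - Q' - T') = Q - Q' - T' := by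
      intro σ
      have h4 := h3 σ
      rw [map_sub, map_sub]
      have h5 : act W σ.toAlgHom Q = act W σ.toAlgHom T' - T' + (act W σ.toAlgHom Q' - Q') + Q := by
        rw [← h4]
        abel
      rw [h5]
      abel
    obtain ⟨q, hq⟩ := hjf _ hfix
    refine ⟨q, hj ?_⟩
    rw [map_add, map_add, hq, ← hQ', hQ]
    have e7 : Q' + Q' + (Q - Q' - T' + (Q - Q' - T')) = Q + Q - (T' + T') := by abel
    rw [e7, hT', sub_zero]


/-- JOB GRPF -/
theorem grpf : S_GRPF := by
  intro F _ _ A B hd hfin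
  obtain ⟨a, b, c, hab, hac, hbc, h⟩ := exists_isR A B hd (AlgebraicClosure F)
  have hΔ : (shF A B).Δ ≠ 0 := by
    have e : (shF A B).Δ = -16 * (4 * A ^ 3 + 27 * B ^ 2) := by
      simp only [shF, WeierstrassCurve.Δ, WeierstrassCurve.b₂, WeierstrassCurve.b₄,
        WeierstrassCurve.b₆, WeierstrassCurve.b₈]
      ring
    rw [e]
    exact mul_ne_zero (by norm_num) hd
  exact sel2_card_le hab hac hbc h (Pool.Agent.Q286.EQ.mordell_weil F (shF A B) hΔ)

end Pool.Agent.Q153.ESF
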