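import Pool.Agent.Q161.ESF.Stm7

/-!
# Project ESF (helper161), job K90F: Hilbert 90 over a number field

Adapted from `Pool/Agent/Q68/EA/K90.lean`.
-/

set_option autoImplicit false

namespace Pool.Agent.Q153.ESF

open WeierstrassCurve Polynomial NumberField

open scoped Classical

open Pool.Agent.Q161.ESF

/-- the Galois group is transitive on the embeddings -/
theorem trans_emb {F : Type} [Field F] {L : Type} [Field L] [Algebra F L] (e1 e : L →ₐ[F] AlgebraicClosure F) :
    ∃ σ : AlgebraicClosure F ≃ₐ[F] AlgebraicClosure F, σ.toAlgHom.comp e1 = e := by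
  let _ : Algebra L (AlgebraicClosure F) := e1.toRingHom.toAlgebra
  have : IsScalarTower F L (AlgebraicClosure F) := IsScalarTower.of_algebraMap_eq (fun x => (e1.commutes x).symm)
  have : Algebra.IsAlgebraic L (AlgebraicClosure F) := Algebra.IsAlgebraic.tower_top (K := F) L
  obtain ⟨φ, hφ⟩ := IsAlgClosed.surjective_domRestrict_of_isAlgebraic (K := F) (L := L)
    (M := AlgebraicClosure F) (E := AlgebraicClosure F) e
  refine ⟨AlgEquiv.ofBijective φ (Algebra.IsAlgebraic.algHom_bijective φ), ?_⟩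
  ext x
  have := DFunLike.congr_fun hφ x
  exact this

theorem symm_comp {F : Type} [Field F] {L : Type} [Field L] [Algebra F L] (σ : AlgebraicClosure F ≃ₐ[F] AlgebraicClosure F) {e e' : L →ₐ[F] AlgebraicClosure F}
    (h : σ.toAlgHom.comp e = e') : σ.symm.toAlgHom.comp e' = e := by
  rw [← h]
  ext x
  show σ.symm (σ (e x)) = e x
  exact σ.symm_apply_apply _

/-- JOB K90F -/
theorem k90f : S_K90F := by
  intro F _ _ L _ _ _ c hlc hpm hcoc
  have hne : ∀ σ e, c σ e ≠ 0 := fun σ e => by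
    rcases hpm σ e with h | h <;> rw [h] <;> norm_num
  have hsq : ∀ σ e, c σ e * c σ e = 1 := fun σ e => by
    rcases hpm σ e with h | h <;> rw [h] <;> norm_num
  have hfix : ∀ (τ : AlgebraicClosure F ≃ₐ[F] AlgebraicClosure F) σ e, τ (c σ e) = c σ e := fun τ σ e => by
    rcases hpm σ e with h | h <;> rw [h] <;> simp
  obtain ⟨e1⟩ : Nonempty (L →ₐ[F] AlgebraicClosure F) := ⟨IsAlgClosed.lift⟩
  have hone : ∀ e, c 1 e = 1 := by
    intro e
    have h := hcoc 1 1 e
    have h1 : ((1 : AlgebraicClosure F ≃ₐ[F] AlgebraicClosure F).symm.toAlgHom.comp e) = e := by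
      ext x
      rfl
    rw [h1, mul_one] at h
    have h2 : c 1 e * 1 = c 1 e * c 1 e := by rw [mul_one]; exact h
    exact (mul_left_cancel₀ (hne 1 e) h2).symm
  have hst : ∀ σ τ : AlgebraicClosure F ≃ₐ[F] AlgebraicClosure F, σ.toAlgHom.comp e1 = e1 → c (σ * τ) e1 = c σ e1 * c τ e1 := by
    intro σ τ h
    rw [hcoc, symm_comp σ h]
  have hinv : ∀ σ : AlgebraicClosure F ≃ₐ[F] AlgebraicClosure F, σ.toAlgHom.comp e1 = e1 → (σ⁻¹).toAlgHom.comp e1 = e1 :=
    fun σ h => symm_comp σ h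
  have hmul : ∀ σ τ : AlgebraicClosure F ≃ₐ[F] AlgebraicClosure F, σ.toAlgHom.comp e1 = e1 → τ.toAlgHom.comp e1 = e1 →
      (σ * τ).toAlgHom.comp e1 = e1 := by
    intro σ τ h1 h2
    have : (σ * τ).toAlgHom.comp e1 = σ.toAlgHom.comp (τ.toAlgHom.comp e1) := rfl
    rw [this, h2, h1]
  have hcinv : ∀ σ : AlgebraicClosure F ≃ₐ[F] AlgebraicClosure F, σ.toAlgHom.comp e1 = e1 → c (σ⁻¹) e1 = c σ e1 := by
    intro σ h
    have h1 := hst σ σ⁻¹ h
    rw [mul_inv_cancel, hone] at h1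
    have h2 : c σ e1 * c σ⁻¹ e1 = c σ e1 * c σ e1 := by rw [hsq, ← h1]
    exact mul_left_cancel₀ (hne σ e1) h2
  -- the kernel of the character
  let N : Subgroup (AlgebraicClosure F ≃ₐ[F] AlgebraicClosure F) :=
    { carrier := {σ | σ.toAlgHom.comp e1 = e1 ∧ c σ e1 = 1}
      one_mem' := ⟨by ext x; rfl, hone e1⟩
      mul_mem' := by
        rintro σ τ ⟨h1, h2⟩ ⟨h3, h4⟩
        exact ⟨hmul σ τ h1 h3, by rw [hst σ τ h1, h2, h4, one_mul]⟩
      inv_mem' := by
        rintro σ ⟨h1, h2⟩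
        exact ⟨hinv σ h1, by rw [hcinv σ h1, h2]⟩ }
  have hNmem : ∀ σ, σ ∈ N ↔ σ.toAlgHom.comp e1 = e1 ∧ c σ e1 = 1 := fun σ => Iff.rfl
  have hfr : ∀ σ : AlgebraicClosure F ≃ₐ[F] AlgebraicClosure F, σ ∈ e1.fieldRange.fixingSubgroup ↔ σ.toAlgHom.comp e1 = e1 := by
    intro σ
    rw [IntermediateField.mem_fixingSubgroup_iff]
    constructor
    · intro h
      ext x
      exact h (e1 x) ⟨x, rfl⟩
    · rintro h y ⟨x, rfl⟩
      exact DFunLike.congr_fun h x
  have hNc : IsClosed (N : Set (AlgebraicClosure F ≃ₐ[F] AlgebraicClosure F)) := by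
    have h1 : (N : Set (AlgebraicClosure F ≃ₐ[F] AlgebraicClosure F)) =
        (e1.fieldRange.fixingSubgroup : Set (AlgebraicClosure F ≃ₐ[F] AlgebraicClosure F)) ∩ {σ | c σ e1 = 1} := by
      ext σ
      rw [Set.mem_inter_iff]
      show σ ∈ N ↔ σ ∈ e1.fieldRange.fixingSubgroup ∧ c σ e1 = 1
      rw [hNmem, hfr]
    rw [h1]
    exact (InfiniteGalois.fixingSubgroup_isClosed _).inter ((hlc e1).isClosed_fiber 1)
  -- the square root
  obtain ⟨g1, hg1, hg1s⟩ : ∃ g1 : AlgebraicClosure F, g1 ≠ 0 ∧ ∀ σ : AlgebraicClosure F ≃ₐ[F] AlgebraicClosure F, σ.toAlgHom.comp e1 = e1 →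
      σ g1 = c σ e1 * g1 := by
    by_cases hA : ∀ σ : AlgebraicClosure F ≃ₐ[F] AlgebraicClosure F, σ.toAlgHom.comp e1 = e1 → c σ e1 = 1
    · exact ⟨1, one_ne_zero, fun σ h => by rw [hA σ h, map_one, one_mul]⟩
    · push Not at hA
      obtain ⟨τ, hτ, hτ1⟩ := hA
      have hτ2 : c τ e1 = -1 := (hpm τ e1).resolve_left hτ1
      obtain ⟨x, hx, hxτ⟩ : ∃ x : AlgebraicClosure F, (∀ σ ∈ N, σ x = x) ∧ τ x ≠ x := by
        by_contra hcon
        push Not at hcon
        have h1 : τ ∈ (IntermediateField.fixedField N).fixingSubgroup := by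
          rw [IntermediateField.mem_fixingSubgroup_iff]
          intro y hy
          rw [IntermediateField.mem_fixedField_iff] at hy
          exact hcon y hy
        have h2 := InfiniteGalois.fixingSubgroup_fixedField (k := F) (K := AlgebraicClosure F) ⟨N, hNc⟩
        have h3 : τ ∈ N := by
          have h4 : (IntermediateField.fixedField N).fixingSubgroup = N := h2
          rw [h4] at h1
          exact h1
        exact hτ1 ((hNmem τ).1 h3).2
      refine ⟨x - τ x, sub_ne_zero.2 (Ne.symm hxτ), fun σ hσ => ?_⟩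
      rcases hpm σ e1 with h | h
      · have h1 : σ ∈ N := (hNmem σ).2 ⟨hσ, h⟩
        have h2 : τ⁻¹ * σ * τ ∈ N := by
          refine (hNmem _).2 ⟨hmul _ _ (hmul _ _ (hinv τ hτ) hσ) hτ, ?_⟩
          rw [hst _ _ (hmul _ _ (hinv τ hτ) hσ), hst _ _ (hinv τ hτ), hcinv τ hτ, h, hτ2]
          norm_num
        have h3 := hx _ h2
        have h4 : τ ((τ⁻¹ * σ * τ) x) = τ x := by rw [h3]
        have h5 : τ ((τ⁻¹ * σ * τ) x) = σ (τ x) := by
          rw [← AlgEquiv.mul_apply, ← AlgEquiv.mul_apply]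
          congr 1
          group
        rw [map_sub, hx _ h1, ← h5, h4, h, one_mul]
      · have h2 : τ⁻¹ * σ ∈ N := by
          refine (hNmem _).2 ⟨hmul _ _ (hinv τ hτ) hσ, ?_⟩
          rw [hst _ _ (hinv τ hτ), hcinv τ hτ, h, hτ2]
          norm_num
        have h3 : σ * τ ∈ N := by
          refine (hNmem _).2 ⟨hmul _ _ hσ hτ, ?_⟩
          rw [hst _ _ hσ, h, hτ2]
          norm_num
        have h4 : σ x = τ x := by
          have h5 := hx _ h2
          have h6 : τ ((τ⁻¹ * σ) x) = τ x := by rw [h5]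
          rw [← h6, ← AlgEquiv.mul_apply]
          congr 1
          group
        have h7 : σ (τ x) = x := by
          have := hx _ h3
          rwa [AlgEquiv.mul_apply] at this
        rw [map_sub, h4, h7, h]
        ring
  choose s hs using fun e => trans_emb e1 e
  have hind : ∀ (σ : AlgebraicClosure F ≃ₐ[F] AlgebraicClosure F) (e : L →ₐ[F] AlgebraicClosure F), σ.toAlgHom.comp e1 = e →
      c (s e) e * (s e) g1 = c σ e * σ g1 := by
    intro σ e he
    obtain ⟨ρ, hρ⟩ : ∃ ρ : AlgebraicClosure F ≃ₐ[F] AlgebraicClosure F, ρ = σ⁻¹ * s e := ⟨_, rfl⟩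
    have h1 : s e = σ * ρ := by rw [hρ]; group
    have h2 : ρ.toAlgHom.comp e1 = e1 := by
      have : ρ.toAlgHom.comp e1 = σ.symm.toAlgHom.comp ((s e).toAlgHom.comp e1) := by rw [hρ]; rfl
      rw [this, hs, symm_comp σ he]
    rw [h1, hcoc, symm_comp σ he, AlgEquiv.mul_apply, hg1s ρ h2, map_mul, hfix]
    calc c σ e * c ρ e1 * (c ρ e1 * σ g1) = (c ρ e1 * c ρ e1) * (c σ e * σ g1) := by ring
      _ = c σ e * σ g1 := by rw [hsq, one_mul]
  obtain ⟨δ, hδ⟩ : ∃ δ : L, e1 δ = g1 ^ 2 := by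
    have h1 : g1 ^ 2 ∈ IntermediateField.fixedField e1.fieldRange.fixingSubgroup := by
      rw [IntermediateField.mem_fixedField_iff]
      intro σ hσ
      rw [map_pow, hg1s σ ((hfr σ).1 hσ), mul_pow, pow_two (c σ e1), hsq, one_mul]
    rw [InfiniteGalois.fixedField_fixingSubgroup] at h1
    exact h1
  refine ⟨fun e => c (s e) e * (s e) g1, δ, fun e => ?_, fun σ e => ?_, fun e => ?_⟩
  · refine mul_ne_zero (hne _ _) ?_
    rw [Ne, map_eq_zero_iff _ (s e).injective]
    exact hg1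
  · obtain ⟨e', he'⟩ : ∃ e', e' = σ.symm.toAlgHom.comp e := ⟨_, rfl⟩
    rw [← he']
    have h1 : (σ * s e').toAlgHom.comp e1 = e := by
      have h2 : (σ * s e').toAlgHom.comp e1 = σ.toAlgHom.comp ((s e').toAlgHom.comp e1) := rfl
      rw [h2, hs, he']
      ext x
      show σ (σ.symm (e x)) = e x
      exact σ.apply_symm_apply _
    show σ (c (s e') e' * (s e') g1) = c σ e * (c (s e) e * (s e) g1)
    rw [hind (σ * s e') e h1, hcoc, ← he', map_mul, hfix, AlgEquiv.mul_apply]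
    calc c (s e') e' * σ ((s e') g1) = (c σ e * c σ e) * (c (s e') e' * σ ((s e') g1)) := by
          rw [hsq, one_mul]
      _ = c σ e * (c σ e * c (s e') e' * σ ((s e') g1)) := by ring
  · show (c (s e) e * (s e) g1) ^ 2 = e δ
    have h1 : e δ = (s e) (e1 δ) := by
      have := DFunLike.congr_fun (hs e) δ
      exact this.symm
    rw [h1, hδ, mul_pow, pow_two (c (s e) e), hsq, one_mul, map_pow]

end Pool.Agent.Q153.ESF
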